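import Pool.Agent.Helper82.CF.Final

/-!
MP_d2f54f_al: the composition factors of an arbitrary inverting pair are inverting pairs, and the
completely reducible inverting pairs are the direct sums of irreducible inverting pairs.
-/

namespace Pool.Agent.Results.MP_d2f54f_al.CompositionFactors

open Pool.Agent.Results.MP_d2f54f_al.Irreducible (IsInvertingPair IsIrreducible)

universe u v w

/-- (1) Let `(K, Ks)` be an inverting pair on `V`, let `W` be a subspace invariant under `K` and
`Ks` and let `p : W → C` be a linear map onto `C` with `p K = K' p` and `p Ks = Ks' p`, where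
`(K', Ks')` is irreducible. Then `(K', Ks')` is an inverting pair on `C`.
(2) Let `V` be the direct sum of the subspaces `W i`, on which `K`, `Ks` restrict to irreducible
pairs `(k i, ks i)`. Then `(K, Ks)` is an inverting pair iff every `(k i, ks i)` is. -/
theorem result (F : Type u) [Field F] (V : Type v) [AddCommGroup V] [Module F V]
    [FiniteDimensional F V] (K Ks : V ≃ₗ[F] V) :
    (IsInvertingPair (Module.finrank F V) K Ks →
      ∀ (C : Type w) [AddCommGroup C] [Module F C] (K' Ks' : C ≃ₗ[F] C) (W : Submodule F V)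
        (p : W →ₗ[F] C), IsIrreducible K' Ks' → Function.Surjective p →
        (∀ w : W, ∃ h : K w ∈ W, p ⟨K w, h⟩ = K' (p w)) →
        (∀ w : W, ∃ h : Ks w ∈ W, p ⟨Ks w, h⟩ = Ks' (p w)) →
        IsInvertingPair (Module.finrank F C) K' Ks') ∧
    (∀ (r : ℕ) (W : Fin r → Submodule F V) (k ks : ∀ i, W i ≃ₗ[F] W i),
      DirectSum.IsInternal W → (∀ i, IsIrreducible (k i) (ks i)) →
      (∀ i (w : W i), ((k i w : W i) : V) = K w) → (∀ i (w : W i), ((ks i w : W i) : V) = Ks w) →
      (IsInvertingPair (Module.finrank F V) K Ks ↔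
        ∀ i, IsInvertingPair (Module.finrank F (W i)) (k i) (ks i))) :=
  ⟨fun h _ _ _ _ _ _ p hirr hp hK hKs => Pool.Agent.Helper82.CF.comp_factor h hirr p hp hK hKs,
    fun _ _ _ _ hW hirr hk hks =>
      Pool.Agent.Helper82.CF.completely_reducible hW hk hks hirr⟩

end Pool.Agent.Results.MP_d2f54f_al.CompositionFactors
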