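import Pool.Agent.Helper31.IPS.AllN
import Pool.Agent.Helper14.IP.Rotate

/-!
MP_d2f54f_al: the classification of the irreducible inverting pairs, over every field, in every
dimension `n = m + 1`. The definitions of the statement are in `Pool/Agent/Helper31/IPS/Lists.lean`.
-/

namespace Pool.Agent.Results.MP_d2f54f_al.Irreducible

open Pool.Agent.Helper31.IPS

universe u v w

/-- Classification of the irreducible inverting pairs of dimension `n = m + 1`, over every field:
which pairs they are, existence for all data, when two of them are conjugate, and the last criterion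
in closed form for the main arrays (the only ones for `n ≥ 7`). -/
theorem result (F : Type u) [Field F] (m : ℕ) :
    (∀ (V : Type v) [AddCommGroup V] [Module F V] (K Ks : V ≃ₗ[F] V),
      (IsInvertingPair (m + 1) K Ks ∧ IsIrreducible K Ks) ↔
        ∃ (a b : F) (t s f : ℕ → F), a ≠ 0 ∧ b ≠ 0 ∧ IsArray (m + 1) t s f ∧
          HasData (m + 1) K Ks a b t s f) ∧
    (∀ (V : Type v) [AddCommGroup V] [Module F V], Module.finrank F V = m + 1 →
      ∀ (a b : F) (t s f : ℕ → F), a ≠ 0 → b ≠ 0 → IsArray (m + 1) t s f →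
        ∃ K Ks : V ≃ₗ[F] V, HasData (m + 1) K Ks a b t s f) ∧
    (∀ (V : Type v) [AddCommGroup V] [Module F V] (V' : Type w) [AddCommGroup V'] [Module F V']
      (K Ks : V ≃ₗ[F] V) (K' Ks' : V' ≃ₗ[F] V') (a b a' b' : F) (t s f t' s' f' : ℕ → F),
      a ≠ 0 → b ≠ 0 → a' ≠ 0 → b' ≠ 0 → IsArray (m + 1) t s f → IsArray (m + 1) t' s' f' →
      HasData (m + 1) K Ks a b t s f → HasData (m + 1) K' Ks' a' b' t' s' f' →
      (Conjugate K Ks K' Ks' ↔
        ∃ p r : Fin (m + 1), IsRotation m a b t s f a' b' t' s' f' p r)) ∧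
    (∀ (V : Type v) [AddCommGroup V] [Module F V] (V' : Type w) [AddCommGroup V'] [Module F V']
      (K Ks : V ≃ₗ[F] V) (K' Ks' : V' ≃ₗ[F] V') (a b a' b' : F) (t s f t' s' f' : ℕ → F)
      (q c q' c' : F), 2 ≤ m →
      a ≠ 0 → b ≠ 0 → a' ≠ 0 → b' ≠ 0 → IsMain (m + 1) q c t s f →
      IsMain (m + 1) q' c' t' s' f' →
      HasData (m + 1) K Ks a b t s f → HasData (m + 1) K' Ks' a' b' t' s' f' →
      (Conjugate K Ks K' Ks' ↔ q' = q ∧ c' = c ∧ ((a' = a ∧ b' = b) ∨
        (q ^ (m + 1) = 1 ∧ c = -1 ∧ a' ^ (m + 1) = a ^ (m + 1) ∧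
          b' ^ (m + 1) = b ^ (m + 1))))) := by
  obtain ⟨h1, h2, h3⟩ := final_of (isArray_iff (F := F) m)
  refine ⟨h1, h2, ?_, ?_⟩
  · intro V _ _ V' _ _ K Ks K' Ks' a b a' b' t s f t' s' f' ha hb ha' hb' hA hA' hD hD'
    simp only [IsRotation_iff]
    exact h3 V V' K Ks K' Ks' a b a' b' t s f t' s' f' ha hb ha' hb' hA hA' hD hD'
  · intro V _ _ V' _ _ K Ks K' Ks' a b a' b' t s f t' s' f' q c q' c' hm ha hb ha' hb' hM hM' hD hD'
    exact Pool.Agent.Helper14.IP.main_conj_iff (by omega) (good_of_main hM ha hb)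
      (good_of_main hM' ha' hb') (isMain_of_main hM hD) (isMain_of_main hM' hD')

end Pool.Agent.Results.MP_d2f54f_al.Irreducible
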